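import Mathlib
import Pool.Agent.Lib.helper4.FreeBall

namespace Pool.Agent.Results.MP_689404_al.SphereFormula

/-- `A ⊆ F_r` freely generates a subgroup: the homomorphism from the free group on `A` to `F_r`
extending the inclusion is injective. -/
def FreelyGenerates {r : ℕ} (A : Finset (FreeGroup (Fin r))) : Prop :=
  Function.Injective (FreeGroup.lift (Subtype.val : A → FreeGroup (Fin r)))

/-- The sizes of the subsets of the sphere `S_n` of `F_r` that freely generate a subgroup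
(`FreeGroup.norm` is the length of the reduced word). -/
def sizes (r n : ℕ) : Set ℕ :=
  {m | ∃ A : Finset (FreeGroup (Fin r)), (∀ g ∈ A, g.norm = n) ∧ FreelyGenerates A ∧ A.card = m}

/-- `a_r(2k+1) = r (2r-1)^k` and `a_r(2k+2) = (2r-1)^(k+1)`. -/
theorem result (r : ℕ) (hr : 1 ≤ r) :
    (∀ k : ℕ, IsGreatest (sizes r (2 * k + 1)) (r * (2 * r - 1) ^ k)) ∧
    (∀ k : ℕ, IsGreatest (sizes r (2 * k + 2)) ((2 * r - 1) ^ (k + 1))) := by
  have : Nonempty (Fin r) := ⟨⟨0, hr⟩⟩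
  refine ⟨fun k => ⟨?_, ?_⟩, fun k => ⟨?_, ?_⟩⟩
  · obtain ⟨X, h1, h2, h3⟩ := H4FreeBall.lower_odd (α := Fin r) k
    exact ⟨X, h2, h3, by simpa using h1⟩
  · rintro m ⟨X, h1, h2, rfl⟩
    simpa using (H4FreeBall.upper _ X (fun g hg => (h1 g hg).le) h2).1 k rfl
  · obtain ⟨X, h1, h2, h3⟩ := H4FreeBall.lower_even (α := Fin r) k
    exact ⟨X, h2, h3, by simpa using h1⟩
  · rintro m ⟨X, h1, h2, rfl⟩
    simpa using (H4FreeBall.upper _ X (fun g hg => (h1 g hg).le) h2).2 k rfl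

end Pool.Agent.Results.MP_689404_al.SphereFormula
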